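import Mathlib

/-!
# Two one-parameter groups of operators

An additive group `V` with two commuting families `T x`, `B x` (`x` in a field) generating an
action of `SL₂`, and a vector on which products of many operators `T x - 1` vanish.
-/

set_option autoImplicit false

namespace Pool.Agent.HuaFd13

/-- Operators `T x`, `B x`, `D k` on an abelian group with the relations of `SL₂`. -/
structure Op (L V : Type) [Field L] [AddCommGroup V] where
  T : L → V →+ V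
  B : L → V →+ V
  D : L → V →+ V
  T_zero : ∀ v, T 0 v = v
  T_add : ∀ x y v, T (x + y) v = T x (T y v)
  B_zero : ∀ v, B 0 v = v
  B_add : ∀ x y v, B (x + y) v = B x (B y v)
  D_inv : ∀ k v, k ≠ 0 → D k (D k⁻¹ v) = v
  D_T : ∀ k x v, k ≠ 0 → D k (T x v) = T (k * k * x) (D k v)
  D_B : ∀ k x v, k ≠ 0 → D k (B x v) = B (k⁻¹ * k⁻¹ * x) (D k v)
  rel : ∀ k y v, k ≠ 0 → B y (T k v) = T k (B (-k⁻¹) (T (-(k * k * y)) (B k⁻¹ v)))
  mu : ∀ x v, x ≠ 0 → T x (B (-x⁻¹) (T x v)) = D x (T 1 (B (-1) (T 1 v)))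

section

variable {L V : Type} [Field L] [AddCommGroup V]

/-- The union of the sets `t ^ j R`. -/
def Rs (t : L) (R : Subring L) : Set L := {x | ∃ j : ℕ, t⁻¹ ^ j * x ∈ R}

section

variable {t : L} {R : Subring L}

theorem Rs_of_mem {x : L} (hx : x ∈ R) : x ∈ Rs t R := ⟨0, by simpa using hx⟩

variable (ht : t ≠ 0) (hR1 : t⁻¹ ∈ R)

include hR1 in
theorem Rs_up {x : L} {j i : ℕ} (h : t⁻¹ ^ j * x ∈ R) (hji : j ≤ i) : t⁻¹ ^ i * x ∈ R := by
  obtain ⟨d, rfl⟩ := Nat.exists_eq_add_of_le hji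
  rw [pow_add, mul_comm (t⁻¹ ^ j), mul_assoc]
  exact R.mul_mem (R.pow_mem hR1 d) h

include hR1 in
theorem Rs_add {x y : L} (hx : x ∈ Rs t R) (hy : y ∈ Rs t R) : x + y ∈ Rs t R := by
  obtain ⟨i, hi⟩ := hx
  obtain ⟨j, hj⟩ := hy
  refine ⟨max i j, ?_⟩
  rw [mul_add]
  exact R.add_mem (Rs_up hR1 hi (le_max_left _ _)) (Rs_up hR1 hj (le_max_right _ _))

theorem Rs_neg {x : L} (hx : x ∈ Rs t R) : -x ∈ Rs t R := by
  obtain ⟨i, hi⟩ := hx
  refine ⟨i, ?_⟩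
  rw [mul_neg]
  exact R.neg_mem hi

include hR1 in
theorem Rs_sub {x y : L} (hx : x ∈ Rs t R) (hy : y ∈ Rs t R) : x - y ∈ Rs t R := by
  rw [sub_eq_add_neg]
  exact Rs_add hR1 hx (Rs_neg hy)

theorem Rs_mul {x y : L} (hx : x ∈ Rs t R) (hy : y ∈ Rs t R) : x * y ∈ Rs t R := by
  obtain ⟨i, hi⟩ := hx
  obtain ⟨j, hj⟩ := hy
  refine ⟨i + j, ?_⟩
  have h : t⁻¹ ^ (i + j) * (x * y) = (t⁻¹ ^ i * x) * (t⁻¹ ^ j * y) := by rw [pow_add]; ring
  rw [h]
  exact R.mul_mem hi hj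

include ht in
theorem Rs_pow (n : ℕ) : t ^ n ∈ Rs t R := by
  refine ⟨n, ?_⟩
  rw [← mul_pow, inv_mul_cancel₀ ht, one_pow]
  exact R.one_mem

include hR1 in
theorem Rs_inv_pow (n : ℕ) : t⁻¹ ^ n ∈ Rs t R := Rs_of_mem (R.pow_mem hR1 n)

/-- The general extension lemma. -/
theorem ext_all (ht : t ≠ 0) (hR1 : t⁻¹ ∈ R) (h1 : t * t - 1 ≠ 0) (hR3 : (t * t - 1)⁻¹ ∈ R)
    (F : L → V →+ V) (hFadd : ∀ x y v, F (x + y) v = F x (F y v))
    (W : AddSubgroup V) (hFW : ∀ z ∈ Rs t R, ∀ w ∈ W, F z w = w) (E : V →+ V)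
    (hE : ∀ z v, E (F z v) = F (t * t * z) (E v)) (hEW : ∀ w ∈ W, E w = w) {v : V}
    (hEv : E v - v ∈ W) {b : ℕ} (hb : ∀ x ∈ R, F (t⁻¹ ^ b * x) v - v ∈ W) :
    ∀ z ∈ Rs t R, F z v = v := by
  -- the key computation
  have hkey : ∀ z, F z v - v ∈ W → t * t * z ∈ Rs t R → F (t * t * z) v - v = F z v - v := by
    intro z hz hz2
    set w0 := E v - v with hw0
    have e1 : v = E v - w0 := by rw [hw0]; abel
    have e2 : F (t * t * z) v = E (F z v) - w0 := by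
      conv_lhs => rw [e1]
      rw [map_sub, ← hE, hFW _ hz2 _ hEv]
    have e3 : E (F z v) = E (F z v - v) + E v := by rw [map_sub]; abel
    rw [e2, e3, hEW _ hz, hw0]
    abel
  have htt : t * t ∈ Rs t R := by
    have h := Rs_pow (R := R) ht 2
    rwa [pow_two] at h
  -- all `z` are in the stabiliser
  have hall : ∀ z ∈ Rs t R, F z v - v ∈ W := by
    have h2 : ∀ i : ℕ, ∀ x ∈ R, F (t ^ (2 * i) * (t⁻¹ ^ b * x)) v - v ∈ W := by
      intro i
      induction i with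
      | zero =>
        intro x hx
        simpa using hb x hx
      | succ i ih =>
        intro x hx
        have e : t ^ (2 * (i + 1)) * (t⁻¹ ^ b * x) = t * t * (t ^ (2 * i) * (t⁻¹ ^ b * x)) := by
          rw [Nat.mul_add, pow_add]; ring
        rw [e, hkey _ (ih x hx)]
        · exact ih x hx
        · exact Rs_mul htt (Rs_mul (Rs_pow ht _) (Rs_mul (Rs_inv_pow hR1 _) (Rs_of_mem hx)))
    rintro z ⟨j, hj⟩
    have h3 := h2 (j + b) (t⁻¹ ^ (2 * (j + b)) * (t ^ b * z)) (by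
      have e : t⁻¹ ^ (2 * (j + b)) * (t ^ b * z) = t⁻¹ ^ (j + b) * (t⁻¹ ^ j * z) := by
        have e1 : t⁻¹ ^ (2 * (j + b)) = t⁻¹ ^ (j + b) * t⁻¹ ^ j * t⁻¹ ^ b := by
          rw [← pow_add, ← pow_add]; congr 1; ring
        rw [e1]
        have e2 : t⁻¹ ^ b * t ^ b = 1 := by rw [← mul_pow, inv_mul_cancel₀ ht, one_pow]
        linear_combination (t⁻¹ ^ (j + b) * t⁻¹ ^ j * z) * e2
      rw [e]
      exact R.mul_mem (R.pow_mem hR1 _) hj)
    have e : t ^ (2 * (j + b)) * (t⁻¹ ^ b * (t⁻¹ ^ (2 * (j + b)) * (t ^ b * z))) = z := by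
      have e2 : t⁻¹ ^ b * t ^ b = 1 := by rw [← mul_pow, inv_mul_cancel₀ ht, one_pow]
      have e3 : t⁻¹ ^ (2 * (j + b)) * t ^ (2 * (j + b)) = 1 := by
        rw [← mul_pow, inv_mul_cancel₀ ht, one_pow]
      linear_combination (t⁻¹ ^ b * t ^ b * z) * e3 + z * e2
    rwa [e] at h3
  intro z hz
  set z' := (t * t - 1)⁻¹ * z with hz'
  have hz'R : z' ∈ Rs t R := Rs_mul (Rs_of_mem hR3) hz
  have ez : z + z' = t * t * z' := by
    rw [hz']
    have : (t * t - 1) * ((t * t - 1)⁻¹ * z) = z := by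
      rw [← mul_assoc, mul_inv_cancel₀ h1, one_mul]
    linear_combination -this
  have h4 := hkey z' (hall _ hz'R) (Rs_mul htt hz'R)
  rw [← ez, hFadd] at h4
  have h5 : F z (F z' v) = F z (F z' v - v) + F z v := by rw [map_sub]; abel
  rw [h5, hFW z hz _ (hall _ hz'R)] at h4
  have h6 : F z' v - v + F z v - v = F z' v - v + (F z v - v) := by abel
  rw [h6] at h4
  exact sub_eq_zero.mp (add_eq_left.mp h4)

end

variable (O : Op L V)

namespace Op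

theorem D_inv' {k : L} (hk : k ≠ 0) (v : V) : O.D k⁻¹ (O.D k v) = v := by
  have h := O.D_inv k⁻¹ v (inv_ne_zero hk)
  rwa [_root_.inv_inv] at h

theorem T_comm (x y : L) (v : V) : O.T x (O.T y v) = O.T y (O.T x v) := by
  rw [← O.T_add, ← O.T_add, add_comm]

/-- The vectors fixed by `T x` and `B x`, `x` in `S`. -/
def fix (S : Set L) : AddSubgroup V where
  carrier := {v | ∀ x ∈ S, O.T x v = v ∧ O.B x v = v}
  add_mem' := by
    intro a b ha hb x hx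
    rw [map_add, map_add, (ha x hx).1, (ha x hx).2, (hb x hx).1, (hb x hx).2]
    exact ⟨rfl, rfl⟩
  zero_mem' := by
    intro x hx
    rw [map_zero, map_zero]
    exact ⟨rfl, rfl⟩
  neg_mem' := by
    intro a ha x hx
    rw [map_neg, map_neg, (ha x hx).1, (ha x hx).2]
    exact ⟨rfl, rfl⟩

theorem mem_fix {S : Set L} {v : V} : v ∈ O.fix S ↔ ∀ x ∈ S, O.T x v = v ∧ O.B x v = v :=
  Iff.rfl

variable {t : L} {R : Subring L}

/-- A vector of type `a` modulo the fixed vectors. -/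
def Typ (t : L) (R : Subring L) (a : ℕ) (v : V) : Prop :=
  (∀ x ∈ R, O.T (t ^ a * x) v - v ∈ O.fix (Rs t R)) ∧
  (∀ y ∈ R, O.B (t⁻¹ ^ (a + 1) * y) v - v ∈ O.fix (Rs t R))

/-- Products of `r` operators `T (t ^ n) - 1` map `v` into the fixed vectors. -/
def Nil (t : L) (R : Subring L) : ℕ → V → Prop
  | 0, v => v ∈ O.fix (Rs t R)
  | r + 1, v => ∀ n : ℕ, Nil t R r (O.T (t ^ n) v - v)

theorem nil_iter {r : ℕ} {v : V} {n : ℕ} (h : O.Nil t R r v) :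
    ∀ j ≤ r, O.Nil t R (r - j) ((fun w => O.T (t ^ n) w - w)^[j] v) := by
  intro j hj
  induction j with
  | zero => simpa using h
  | succ j ih =>
    have h1 := ih (by omega)
    rw [Function.iterate_succ_apply']
    have h2 : r - j = (r - (j + 1)) + 1 := by omega
    rw [h2] at h1
    exact h1 n

section

variable (ht : t ≠ 0)

theorem T_fix {x : L} (hx : x ∈ Rs t R) {w : V} (hw : w ∈ O.fix (Rs t R)) : O.T x w = w :=
  (hw x hx).1

theorem B_fix {x : L} (hx : x ∈ Rs t R) {w : V} (hw : w ∈ O.fix (Rs t R)) : O.B x w = w :=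
  (hw x hx).2

theorem D_fix {x : L} (hx0 : x ≠ 0) (hx : x ∈ Rs t R) (hx' : x⁻¹ ∈ Rs t R) {w : V}
    (hw : w ∈ O.fix (Rs t R)) : O.D x w = w := by
  have h1 : (1 : L) ∈ Rs t R := Rs_of_mem R.one_mem
  have h := O.mu x w hx0
  rw [O.T_fix hx hw, O.B_fix (Rs_neg hx') hw, O.T_fix hx hw, O.T_fix h1 hw,
    O.B_fix (Rs_neg h1) hw, O.T_fix h1 hw] at h
  exact h.symm

/-- `T x` preserves congruence, for `T x v ≡ v`. -/
theorem T_congr {x : L} (hx : x ∈ Rs t R) {v w : V} (h : v - w ∈ O.fix (Rs t R)) :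
    O.T x v - O.T x w ∈ O.fix (Rs t R) := by
  rw [← map_sub, O.T_fix hx h]
  exact h

theorem B_congr {x : L} (hx : x ∈ Rs t R) {v w : V} (h : v - w ∈ O.fix (Rs t R)) :
    O.B x v - O.B x w ∈ O.fix (Rs t R) := by
  rw [← map_sub, O.B_fix hx h]
  exact h

theorem D_congr {x : L} (hx0 : x ≠ 0) (hx : x ∈ Rs t R) (hx' : x⁻¹ ∈ Rs t R) {v w : V}
    (h : v - w ∈ O.fix (Rs t R)) : O.D x v - O.D x w ∈ O.fix (Rs t R) := by
  rw [← map_sub, O.D_fix hx0 hx hx' h]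
  exact h

/-- transitivity of congruence -/
theorem _root_.Pool.Agent.HuaFd13.ctr {W : AddSubgroup V} {a b c : V} (h1 : a - b ∈ W)
    (h2 : b - c ∈ W) : a - c ∈ W := by
  have h := W.add_mem h1 h2
  rwa [sub_add_sub_cancel] at h

theorem _root_.Pool.Agent.HuaFd13.csm {W : AddSubgroup V} {a b : V} (h1 : a - b ∈ W) :
    b - a ∈ W := by
  have h := W.neg_mem h1
  rwa [neg_sub] at h

/-- the stabiliser modulo the fixed vectors -/
def stab (hR1 : t⁻¹ ∈ R) (z : V) : AddSubgroup L where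
  carrier := {x | x ∈ Rs t R ∧ O.T x z - z ∈ O.fix (Rs t R)}
  add_mem' := by
    rintro a b ⟨ha, ha'⟩ ⟨hb, hb'⟩
    refine ⟨Rs_add hR1 ha hb, ?_⟩
    rw [O.T_add]
    exact ctr (O.T_congr ha hb') ha'
  zero_mem' := by
    refine ⟨Rs_of_mem R.zero_mem, ?_⟩
    rw [O.T_zero, sub_self]
    exact AddSubgroup.zero_mem _
  neg_mem' := by
    rintro a ⟨ha, ha'⟩
    refine ⟨Rs_neg ha, ?_⟩
    have h := O.T_congr (Rs_neg ha) ha'
    rw [← O.T_add, neg_add_cancel, O.T_zero] at h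
    exact csm h

theorem mem_stab {hR1 : t⁻¹ ∈ R} {z : V} {x : L} : x ∈ O.stab hR1 z ↔
    x ∈ Rs t R ∧ O.T x z - z ∈ O.fix (Rs t R) := Iff.rfl

include ht in
theorem pow_cancel (a : ℕ) (x : L) : t ^ a * (t⁻¹ ^ a * x) = x := by
  have e2 : t⁻¹ ^ a * t ^ a = 1 := by rw [← mul_pow, inv_mul_cancel₀ ht, one_pow]
  linear_combination x * e2

include ht in
theorem pow_cancel' (a : ℕ) (x : L) : t⁻¹ ^ a * (t ^ a * x) = x := by
  have e2 : t⁻¹ ^ a * t ^ a = 1 := by rw [← mul_pow, inv_mul_cancel₀ ht, one_pow]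
  linear_combination x * e2

variable {O}

theorem Typ.T_R {a : ℕ} {v : V} (ht : t ≠ 0) (hR1 : t⁻¹ ∈ R) (h : O.Typ t R a v) {x : L}
    (hx : x ∈ R) : O.T x v - v ∈ O.fix (Rs t R) := by
  have h2 := h.1 (t⁻¹ ^ a * x) (R.mul_mem (R.pow_mem hR1 a) hx)
  rwa [pow_cancel ht] at h2

theorem Typ.aux {a : ℕ} {v : V} (ht : t ≠ 0) (hR1 : t⁻¹ ∈ R)
    (hR4 : ∀ n : ℕ, ((n : L))⁻¹ ∈ R) (h : O.Typ t R a v) (s : ℕ) {y : L} (hy : y ∈ R) :
    O.B (t⁻¹ ^ (a + 2) * y) (O.T (s * t ^ (a + 1)) v) - O.T (s * t ^ (a + 1)) v ∈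
      O.fix (Rs t R) := by
  have hn : (s : L) ∈ R := natCast_mem R s
  by_cases hs : (s : L) = 0
  · rw [hs, zero_mul, O.T_zero]
    have h2 := h.2 (t⁻¹ * y) (R.mul_mem hR1 hy)
    have e : t⁻¹ ^ (a + 1) * (t⁻¹ * y) = t⁻¹ ^ (a + 2) * y := by
      rw [pow_succ t⁻¹ (a + 1)]; ring
    rwa [e] at h2
  set κ : L := s * t ^ (a + 1) with hκ
  have hκ0 : κ ≠ 0 := mul_ne_zero hs (pow_ne_zero _ ht)
  have hκR : κ ∈ Rs t R := Rs_mul (Rs_of_mem hn) (Rs_pow ht _)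
  have hκi : κ⁻¹ = t⁻¹ ^ (a + 1) * (s : L)⁻¹ := by
    rw [hκ, mul_inv, inv_pow, mul_comm]
  have hκiR : κ⁻¹ ∈ Rs t R := by
    rw [hκi]
    exact Rs_mul (Rs_inv_pow hR1 _) (Rs_of_mem (hR4 s))
  have b1 : O.B κ⁻¹ v - v ∈ O.fix (Rs t R) := by
    rw [hκi]
    exact h.2 _ (hR4 s)
  have b2 : O.B (-κ⁻¹) v - v ∈ O.fix (Rs t R) := by
    have h2 := h.2 (-(s : L)⁻¹) (R.neg_mem (hR4 s))
    have e : t⁻¹ ^ (a + 1) * (-(s : L)⁻¹) = -κ⁻¹ := by rw [hκi]; ring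
    rwa [e] at h2
  have hz : κ * κ * (t⁻¹ ^ (a + 2) * y) = t ^ a * (s * s * y) := by
    have e2 : t⁻¹ ^ (a + 2) * t ^ (a + 2) = 1 := by rw [← mul_pow, inv_mul_cancel₀ ht, one_pow]
    have e3 : κ * κ = s * s * (t ^ a * t ^ (a + 2)) := by
      rw [hκ, pow_succ t a, pow_succ t (a + 1), pow_succ t a]; ring
    rw [e3]
    linear_combination (s * s * t ^ a * y) * e2
  have b3 : O.T (-(κ * κ * (t⁻¹ ^ (a + 2) * y))) v - v ∈ O.fix (Rs t R) := by
    have h2 := h.1 (-(s * s * y)) (R.neg_mem (R.mul_mem (R.mul_mem hn hn) hy))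
    have e : t ^ a * -(s * s * y) = -(κ * κ * (t⁻¹ ^ (a + 2) * y)) := by rw [hz]; ring
    rwa [e] at h2
  have hzR : κ * κ * (t⁻¹ ^ (a + 2) * y) ∈ Rs t R := by
    rw [hz]
    exact Rs_mul (Rs_pow ht _) (Rs_of_mem (R.mul_mem (R.mul_mem hn hn) hy))
  rw [O.rel κ _ _ hκ0]
  refine O.T_congr hκR ?_
  refine ctr (O.B_congr (Rs_neg hκiR) ?_) b2
  exact ctr (O.T_congr (Rs_neg hzR) b1) b3

/-- the last nonzero difference has the next type -/
theorem Typ.next {a : ℕ} {v : V} (ht : t ≠ 0) (hR1 : t⁻¹ ∈ R)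
    (hR2 : ∀ x ∈ R, ∃ n : ℤ, ∃ r ∈ R, t * x = n * t + r)
    (hR4 : ∀ n : ℕ, ((n : L))⁻¹ ∈ R) (h : O.Typ t R a v) (j : ℕ)
    (hj : (fun w => O.T (t ^ (a + 1)) w - w)^[j + 1] v ∈ O.fix (Rs t R)) :
    O.Typ t R (a + 1) ((fun w => O.T (t ^ (a + 1)) w - w)^[j] v) := by
  set k : L := t ^ (a + 1) with hk
  have hkR : k ∈ Rs t R := Rs_pow ht _
  have hT : ∀ i : ℕ, ∀ x ∈ R, O.T (t ^ a * x) ((fun w => O.T k w - w)^[i] v) -
      (fun w => O.T k w - w)^[i] v ∈ O.fix (Rs t R) := by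
    intro i
    induction i with
    | zero => exact h.1
    | succ i ih =>
      intro x hx
      rw [Function.iterate_succ_apply']
      set z := (fun w => O.T k w - w)^[i] v with hz
      have e : O.T (t ^ a * x) (O.T k z - z) - (O.T k z - z) =
          O.T k (O.T (t ^ a * x) z - z) - (O.T (t ^ a * x) z - z) := by
        rw [map_sub, map_sub, O.T_comm]; abel
      show O.T (t ^ a * x) (O.T k z - z) - (O.T k z - z) ∈ _
      rw [e]
      exact AddSubgroup.sub_mem _ (by rw [O.T_fix hkR (ih x hx)]; exact ih x hx) (ih x hx)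
  have hB : ∀ i : ℕ, ∀ s : ℕ, ∀ y ∈ R, O.B (t⁻¹ ^ (a + 2) * y)
      (O.T (s * k) ((fun w => O.T k w - w)^[i] v)) -
        O.T (s * k) ((fun w => O.T k w - w)^[i] v) ∈ O.fix (Rs t R) := by
    intro i
    induction i with
    | zero =>
      intro s y hy
      exact h.aux ht hR1 hR4 s hy
    | succ i ih =>
      intro s y hy
      rw [Function.iterate_succ_apply']
      set z := (fun w => O.T k w - w)^[i] v with hz
      have e : O.T (s * k) (O.T k z - z) = O.T ((s + 1 : ℕ) * k) z - O.T (s * k) z := by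
        rw [map_sub, ← O.T_add, Nat.cast_add, Nat.cast_one, add_mul, one_mul]
      show O.B (t⁻¹ ^ (a + 2) * y) (O.T (s * k) (O.T k z - z)) - O.T (s * k) (O.T k z - z) ∈ _
      rw [e, map_sub]
      have h1 := ih (s + 1) y hy
      have h2 := ih s y hy
      have h3 := AddSubgroup.sub_mem _ h1 h2
      have e2 : ∀ p q r s : V, p - q - (r - s) = p - r - (q - s) := by intros; abel
      rwa [e2] at h3
  constructor
  · intro x hx
    obtain ⟨n, r, hr, hnr⟩ := hR2 x hx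
    set z := (fun w => O.T k w - w)^[j] v with hz
    have h1 : k ∈ O.stab hR1 z := by
      refine ⟨hkR, ?_⟩
      rw [Function.iterate_succ_apply'] at hj
      exact hj
    have h2 : t ^ a * r ∈ O.stab hR1 z :=
      ⟨Rs_mul (Rs_pow ht _) (Rs_of_mem hr), hT j r hr⟩
    have h3 : t ^ (a + 1) * x ∈ O.stab hR1 z := by
      have e : t ^ (a + 1) * x = n • k + t ^ a * r := by
        rw [zsmul_eq_mul, hk, pow_succ]
        linear_combination (t ^ a) * hnr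
      rw [e]
      exact AddSubgroup.add_mem _ (AddSubgroup.zsmul_mem _ h1 n) h2
    exact h3.2
  · intro y hy
    have h1 := hB j 0 y hy
    rwa [Nat.cast_zero, zero_mul, O.T_zero] at h1

/-- a vector fixed by `T (t ^ (a + 1))` has the next type -/
theorem Typ.next0 {a : ℕ} {v : V} (ht : t ≠ 0) (hR1 : t⁻¹ ∈ R)
    (hR2 : ∀ x ∈ R, ∃ n : ℤ, ∃ r ∈ R, t * x = n * t + r)
    (hR4 : ∀ n : ℕ, ((n : L))⁻¹ ∈ R) (h : O.Typ t R a v)
    (hj : O.T (t ^ (a + 1)) v - v ∈ O.fix (Rs t R)) : O.Typ t R (a + 1) v :=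
  h.next ht hR1 hR2 hR4 0 hj

/-- the final case -/
theorem Typ.final {a : ℕ} {v : V} (ht : t ≠ 0) (hR1 : t⁻¹ ∈ R)
    (h1 : t * t - 1 ≠ 0) (hR3 : (t * t - 1)⁻¹ ∈ R) (h : O.Typ t R a v)
    (hx : O.T (t ^ (a + 1)) v - v ∈ O.fix (Rs t R))
    (hy : O.T (t ^ (a + 2)) v - v ∈ O.fix (Rs t R)) : v ∈ O.fix (Rs t R) := by
  have e1 : ∀ n : ℕ, (t ^ n)⁻¹ = t⁻¹ ^ n := fun n => (inv_pow t n).symm
  have hp0 : ∀ n : ℕ, t ^ n ≠ 0 := fun n => pow_ne_zero n ht
  have hpi : ∀ n : ℕ, (t ^ n)⁻¹ ∈ Rs t R := fun n => by rw [e1]; exact Rs_inv_pow hR1 n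
  have hmu : ∀ n : ℕ, a + 1 ≤ n → O.T (t ^ n) v - v ∈ O.fix (Rs t R) →
      O.T 1 (O.B (-1) (O.T 1 v)) - O.D (t ^ n)⁻¹ v ∈ O.fix (Rs t R) := by
    intro n hn hv
    have hb : O.B (-(t ^ n)⁻¹) v - v ∈ O.fix (Rs t R) := by
      obtain ⟨d, rfl⟩ := Nat.exists_eq_add_of_le hn
      have h2 := h.2 (-(t⁻¹ ^ d)) (R.neg_mem (R.pow_mem hR1 d))
      have e : t⁻¹ ^ (a + 1) * -(t⁻¹ ^ d) = -(t ^ (a + 1 + d))⁻¹ := by
        rw [e1, pow_add t⁻¹ (a + 1) d]; ring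
      rwa [e] at h2
    have h3 : O.T (t ^ n) (O.B (-(t ^ n)⁻¹) (O.T (t ^ n) v)) - v ∈ O.fix (Rs t R) :=
      ctr (O.T_congr (Rs_pow ht n) (ctr (O.B_congr (Rs_neg (hpi n)) hv) hb)) hv
    rw [O.mu _ _ (hp0 n)] at h3
    have h4 := O.D_congr (inv_ne_zero (hp0 n)) (hpi n)
      (by rw [_root_.inv_inv]; exact Rs_pow ht n) h3
    rwa [O.D_inv' (hp0 n)] at h4
  have m1 := hmu (a + 1) le_rfl hx
  have m2 := hmu (a + 2) (by omega) hy
  have m3 : O.D (t ^ (a + 1))⁻¹ v - O.D (t ^ (a + 2))⁻¹ v ∈ O.fix (Rs t R) := ctr (csm m1) m2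
  -- the operators `E` and `E'`
  have E1 : O.D (t ^ (a + 2)) (O.D (t ^ (a + 1))⁻¹ v) - v ∈ O.fix (Rs t R) := by
    have h2 := O.D_congr (hp0 (a + 2)) (Rs_pow ht _) (hpi _) m3
    rwa [O.D_inv _ _ (hp0 (a + 2))] at h2
  have E2 : O.D (t ^ (a + 1)) (O.D (t ^ (a + 2))⁻¹ v) - v ∈ O.fix (Rs t R) := by
    have h2 := O.D_congr (hp0 (a + 1)) (Rs_pow ht _) (hpi _) (csm m3)
    rwa [O.D_inv _ _ (hp0 (a + 1))] at h2
  have hDi : ∀ n : ℕ, ∀ w ∈ O.fix (Rs t R), O.D (t ^ n)⁻¹ w = w := fun n w hw =>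
    O.D_fix (inv_ne_zero (hp0 n)) (hpi n) (by rw [_root_.inv_inv]; exact Rs_pow ht n) hw
  have hD : ∀ n : ℕ, ∀ w ∈ O.fix (Rs t R), O.D (t ^ n) w = w := fun n w hw =>
    O.D_fix (hp0 n) (Rs_pow ht n) (hpi n) hw
  have hT := ext_all ht hR1 h1 hR3 O.T O.T_add (O.fix (Rs t R))
    (fun z hz w hw => O.T_fix hz hw)
    ((O.D (t ^ (a + 2))).comp (O.D (t ^ (a + 1))⁻¹))
    (by
      intro z v
      simp only [AddMonoidHom.comp_apply]
      rw [O.D_T _ _ _ (inv_ne_zero (hp0 _)), O.D_T _ _ _ (hp0 _)]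
      congr 1
      have := hp0 (a + 1)
      rw [pow_succ t (a + 1)]
      field_simp)
    (by
      intro w hw
      simp only [AddMonoidHom.comp_apply]
      rw [hDi _ w hw, hD _ w hw]) (v := v) E1 (b := 0)
    (by
      intro x hx
      rw [pow_zero, one_mul]
      exact h.T_R ht hR1 hx)
  have hB := ext_all ht hR1 h1 hR3 O.B O.B_add (O.fix (Rs t R))
    (fun z hz w hw => O.B_fix hz hw)
    ((O.D (t ^ (a + 1))).comp (O.D (t ^ (a + 2))⁻¹))
    (by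
      intro z v
      simp only [AddMonoidHom.comp_apply]
      rw [O.D_B _ _ _ (inv_ne_zero (hp0 _)), O.D_B _ _ _ (hp0 _)]
      congr 1
      have := hp0 (a + 1)
      rw [pow_succ t (a + 1)]
      field_simp)
    (by
      intro w hw
      simp only [AddMonoidHom.comp_apply]
      rw [hDi _ w hw, hD _ w hw]) (v := v) E2 (b := a + 1) h.2
  exact fun x hx => ⟨hT x hx, hB x hx⟩

/-- **The main statement**: a vector of some type on which products of `r` operators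
`T (t ^ n) - 1` vanish is fixed. -/
theorem main (ht : t ≠ 0) (hR1 : t⁻¹ ∈ R)
    (hR2 : ∀ x ∈ R, ∃ n : ℤ, ∃ r ∈ R, t * x = n * t + r)
    (h1 : t * t - 1 ≠ 0) (hR3 : (t * t - 1)⁻¹ ∈ R) (hR4 : ∀ n : ℕ, ((n : L))⁻¹ ∈ R) :
    ∀ (r : ℕ) (a : ℕ) (v : V), O.Typ t R a v → O.Nil t R r v → v ∈ O.fix (Rs t R) := by
  intro r
  induction r using Nat.strong_induction_on with
  | _ r ih =>
    have key : ∀ (a : ℕ) (v : V), O.Typ t R a v → O.Nil t R r v →
        O.T (t ^ (a + 1)) v - v ∉ O.fix (Rs t R) → v ∈ O.fix (Rs t R) := by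
      classical
      intro a v hv hr hn
      by_contra hv0
      set f : V → V := fun w => O.T (t ^ (a + 1)) w - w with hf
      have hex : ∃ j, f^[j] v ∈ O.fix (Rs t R) := by
        refine ⟨r, ?_⟩
        have h2 := O.nil_iter (n := a + 1) hr r le_rfl
        rw [Nat.sub_self] at h2
        exact h2
      set j0 := Nat.find hex with hj0
      have hj1 : f^[j0] v ∈ O.fix (Rs t R) := Nat.find_spec hex
      have hjr : j0 ≤ r := Nat.find_min' hex (by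
        have h2 := O.nil_iter (n := a + 1) hr r le_rfl
        rw [Nat.sub_self] at h2
        exact h2)
      have hj2 : 2 ≤ j0 := by
        by_contra hlt
        have h3 : j0 = 0 ∨ j0 = 1 := by omega
        rcases h3 with h3 | h3
        · rw [h3] at hj1
          exact hv0 hj1
        · rw [h3] at hj1
          exact hn hj1
      obtain ⟨j, hj⟩ : ∃ j, j0 = j + 1 := ⟨j0 - 1, by omega⟩
      have hj3 : f^[j] v ∉ O.fix (Rs t R) := Nat.find_min hex (by omega)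
      rw [hj] at hj1
      have h4 := hv.next ht hR1 hR2 hR4 j hj1
      exact hj3 (ih (r - j) (by omega) (a + 1) _ h4 (O.nil_iter (n := a + 1) hr j (by omega)))
    intro a v hv hr
    by_cases hn : O.T (t ^ (a + 1)) v - v ∈ O.fix (Rs t R)
    · have hv1 := hv.next0 ht hR1 hR2 hR4 hn
      by_cases hn2 : O.T (t ^ (a + 2)) v - v ∈ O.fix (Rs t R)
      · exact hv.final ht hR1 h1 hR3 hn hn2
      · exact key (a + 1) v hv1 hr hn2
    · exact key a v hv hr hn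

end

end Op

end

end Pool.Agent.HuaFd13
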