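import Mathlib
import Pool.Agent.HuaDom91.Basic
import Pool.Agent.HuaFd13.Abs

/-!
# Vector fields on the complement of a two-point field
-/

set_option autoImplicit false

namespace Pool.Agent.HuaFd13

open Pool.Agent.HuaTop84 Pool.Agent.HuaVal Pool.Agent.HuaOne84 Pool.Agent.HuaDom91

/-- A two-point field inside a Hua system. -/
structure TP {A : Type} [AddCommGroup A] (H : HS A) {L : Type} [Field L] (φ : L →+ A) : Prop where
  inj : Function.Injective φ
  one : φ 1 = H.one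
  inv : ∀ u, H.inv (φ u) = φ u⁻¹
  U : ∀ u v, H.U (φ u) (φ v) = φ (u * u * v)

variable {A : Type} [AddCommGroup A] {H : HS A} {L : Type} [Field L] {φ : L →+ A}

/-- The complement of the field. -/
abbrev XX (φ : L →+ A) : Type := {u : A // u ∉ Set.range φ}

/-- The vector fields on the complement. -/
abbrev VV (φ : L →+ A) : Type := XX φ → A

theorem XX_ne (u : XX φ) : u.1 ≠ 0 := by
  intro h
  exact u.2 ⟨0, by rw [map_zero, h]⟩

namespace TP

variable (h : TP H φ)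

/-- translation of a point -/
def padd (u : XX φ) (x : L) : XX φ := ⟨u.1 + φ x, by
  rintro ⟨z, hz⟩
  exact u.2 ⟨z - x, by rw [map_sub, hz]; abel⟩⟩

include h in
theorem ne' {k : L} (hk : k ≠ 0) : φ k ≠ 0 := by
  intro h0
  exact hk (h.inj (by rw [h0, map_zero]))

/-- inverse of a point -/
def pinv (u : XX φ) : XX φ := ⟨H.inv u.1, by
  rintro ⟨z, hz⟩
  exact u.2 ⟨z⁻¹, by rw [← h.inv, hz, H.inv_inv]⟩⟩

open Classical in
/-- scaling of a point -/
noncomputable def psc (k : L) (u : XX φ) : XX φ := ⟨if k = 0 then u.1 else H.U (φ k) u.1, by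
  split_ifs with hk
  · exact u.2
  · rintro ⟨z, hz⟩
    refine u.2 ⟨k⁻¹ * k⁻¹ * z, ?_⟩
    rw [← h.U, hz, ← h.inv, H.U_inv_left _ _ (h.ne' hk)]⟩

theorem psc_val {k : L} (hk : k ≠ 0) (u : XX φ) : (h.psc k u).1 = H.U (φ k) u.1 := by
  classical
  exact if_neg hk

/-- the opposite point -/
def pneg (u : XX φ) : XX φ := ⟨-u.1, by
  rintro ⟨z, hz⟩
  exact u.2 ⟨-z, by rw [map_neg, hz, neg_neg]⟩⟩

/-- translation -/
def TT (φ : L →+ A) (x : L) : VV φ →+ VV φ where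
  toFun v := fun u => v (padd u x)
  map_zero' := rfl
  map_add' _ _ := rfl

/-- inversion -/
def II : VV φ →+ VV φ where
  toFun v := fun u => H.U u.1 (v (h.pinv u))
  map_zero' := by
    funext u
    exact map_zero _
  map_add' v w := by
    funext u
    exact map_add _ _ _

/-- the conjugated translation -/
def BB (y : L) : VV φ →+ VV φ := (h.II).comp ((TT φ y).comp h.II)

/-- scaling -/
noncomputable def DD (k : L) : VV φ →+ VV φ where
  toFun v := fun u => H.U (φ k) (v (h.psc k⁻¹ u))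
  map_zero' := by
    funext u
    exact map_zero _
  map_add' v w := by
    funext u
    exact map_add _ _ _

theorem TT_apply (x : L) (v : VV φ) (u : XX φ) : TT φ x v u = v (padd u x) := rfl

theorem II_apply (v : VV φ) (u : XX φ) : h.II v u = H.U u.1 (v (h.pinv u)) := rfl

theorem BB_apply (y : L) (v : VV φ) : h.BB y v = h.II (TT φ y (h.II v)) := rfl

theorem DD_apply (k : L) (v : VV φ) (u : XX φ) : h.DD k v u = H.U (φ k) (v (h.psc k⁻¹ u)) := rfl

theorem II_II (v : VV φ) : h.II (h.II v) = v := by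
  funext u
  rw [II_apply, II_apply]
  show H.U u.1 (H.U (H.inv u.1) _) = _
  rw [H.U_inv_right _ _ (XX_ne u)]
  congr 1
  exact Subtype.ext (H.inv_inv u.1)

theorem TT_zero (v : VV φ) : TT φ 0 v = v := by
  funext u
  rw [TT_apply]
  congr 1
  apply Subtype.ext
  show u.1 + φ 0 = u.1
  rw [map_zero, add_zero]

theorem TT_add (x y : L) (v : VV φ) : TT φ (x + y) v = TT φ x (TT φ y v) := by
  funext u
  rw [TT_apply, TT_apply, TT_apply]
  congr 1
  apply Subtype.ext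
  show u.1 + φ (x + y) = u.1 + φ x + φ y
  rw [map_add, add_assoc]

theorem BB_zero (v : VV φ) : h.BB 0 v = v := by
  rw [BB_apply, TT_zero, II_II]

theorem BB_add (x y : L) (v : VV φ) : h.BB (x + y) v = h.BB x (h.BB y v) := by
  rw [BB_apply, BB_apply, BB_apply, II_II, TT_add]

theorem DD_inv (k : L) (v : VV φ) (hk : k ≠ 0) : h.DD k (h.DD k⁻¹ v) = v := by
  funext u
  rw [DD_apply, DD_apply, ← h.inv, H.U_inv_right _ _ (h.ne' hk)]
  congr 1
  apply Subtype.ext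
  rw [inv_inv, h.psc_val hk, h.psc_val (inv_ne_zero hk), ← h.inv, H.U_inv_right _ _ (h.ne' hk)]

theorem DD_TT (k x : L) (v : VV φ) (hk : k ≠ 0) :
    h.DD k (TT φ x v) = TT φ (k * k * x) (h.DD k v) := by
  funext u
  rw [DD_apply, TT_apply, TT_apply, DD_apply]
  congr 2
  apply Subtype.ext
  rw [h.psc_val (inv_ne_zero hk)]
  show (h.psc k⁻¹ u).1 + φ x = H.U (φ k⁻¹) (u.1 + φ (k * k * x))
  rw [h.psc_val (inv_ne_zero hk), map_add, h.U]
  congr 2
  field_simp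

theorem II_DD (k : L) (v : VV φ) (hk : k ≠ 0) : h.II (h.DD k v) = h.DD k⁻¹ (h.II v) := by
  funext u
  rw [II_apply, DD_apply, DD_apply, II_apply, inv_inv, h.psc_val hk, H.U_U, ← h.inv,
    H.U_inv_left _ _ (h.ne' hk)]
  congr 3
  apply Subtype.ext
  rw [h.psc_val (inv_ne_zero hk)]
  show H.U (φ k⁻¹) (H.inv u.1) = H.inv (h.psc k u).1
  rw [h.psc_val hk, H.inv_U _ _ (h.ne' hk), h.inv]

theorem DD_BB (k x : L) (v : VV φ) (hk : k ≠ 0) :
    h.DD k (h.BB x v) = h.BB (k⁻¹ * k⁻¹ * x) (h.DD k v) := by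
  have h1 : ∀ w, h.DD k (h.II w) = h.II (h.DD k⁻¹ w) := by
    intro w
    have h2 := h.II_DD k⁻¹ w (inv_ne_zero hk)
    rw [inv_inv] at h2
    exact h2.symm
  rw [BB_apply, BB_apply, h1, h.DD_TT _ _ _ (inv_ne_zero hk), h.II_DD _ _ hk]

/-- The formula for `μ`. -/
theorem mu_apply {x : L} (hx : x ≠ 0) (v : VV φ) (u : XX φ) :
    TT φ x (h.BB (-x⁻¹) (TT φ x v)) u =
      H.U u.1 (H.U (φ x⁻¹) (v (pneg (h.psc x (h.pinv u))))) := by
  have hx' := h.ne' hx
  have hu := XX_ne u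
  have hw : u.1 + φ x ≠ 0 := XX_ne (padd u x)
  have hs : H.inv u.1 + φ x⁻¹ ≠ 0 := XX_ne (padd (h.pinv u) x⁻¹)
  have e1 : H.inv (u.1 + φ x) + φ (-x⁻¹) = -H.inv (φ x + H.U (φ x) (H.inv u.1)) := by
    have h1 := inv_sub H hx' hu (by rwa [add_comm])
    rw [← h1, map_neg, ← h.inv, add_comm (φ x)]
    abel
  have e0 : φ x + H.U (φ x) (H.inv u.1) = H.U (φ x) (H.inv u.1 + φ x⁻¹) := by
    rw [map_add, ← h.inv, H.U_self, add_comm]
  rw [TT_apply, BB_apply, II_apply, TT_apply, II_apply, TT_apply]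
  have e2 : ∀ z, H.U (u.1 + φ x) (H.U (H.inv (u.1 + φ x) + φ (-x⁻¹)) z) =
      H.U u.1 (H.U (φ x⁻¹) z) := by
    intro z
    rw [e1, H.U_neg, e0, H.inv_U _ _ hx', H.U_U, H.sum _ _ _ hu hx' hw,
      H.U_inv_right _ _ hx', h.inv, H.U_inv_right _ _ hs]
  refine (e2 _).trans ?_
  congr 3
  apply Subtype.ext
  show H.inv (H.inv (u.1 + φ x) + φ (-x⁻¹)) + φ x = -(h.psc x (h.pinv u)).1
  rw [h.psc_val hx]
  show _ = -H.U (φ x) (H.inv u.1)
  rw [e1, H.inv_neg, H.inv_inv]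
  abel

include h in
theorem U_one' (z : A) : H.U (φ 1) z = z := by rw [h.one, H.U_one]

theorem mu_eq (x : L) (v : VV φ) (hx : x ≠ 0) : TT φ x (h.BB (-x⁻¹) (TT φ x v)) =
    h.DD x (TT φ 1 (h.BB (-1) (TT φ 1 v))) := by
  funext u
  have h1 := h.mu_apply one_ne_zero v (h.psc x⁻¹ u)
  have e3 : h.BB (-(1 : L)⁻¹) = h.BB (-1) := by rw [inv_one]
  rw [e3] at h1
  rw [DD_apply, h1, h.mu_apply hx, inv_one, h.U_one', h.psc_val (inv_ne_zero hx), H.U_U, ← h.inv,
    H.U_inv_right _ _ (h.ne' hx)]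
  congr 3
  apply Subtype.ext
  show -(h.psc x (h.pinv u)).1 = -(h.psc 1 (h.pinv (h.psc x⁻¹ u))).1
  rw [h.psc_val hx, h.psc_val one_ne_zero, h.U_one']
  show -H.U (φ x) (H.inv u.1) = -H.inv (h.psc x⁻¹ u).1
  rw [h.psc_val (inv_ne_zero hx), H.inv_U _ _ (h.ne' (inv_ne_zero hx)), h.inv, inv_inv]

theorem mu_TT {k : L} (hk : k ≠ 0) (x : L) (v : VV φ) :
    TT φ k (h.BB (-k⁻¹) (TT φ k (TT φ (-(k * k * x)) v))) =
      h.BB x (TT φ k (h.BB (-k⁻¹) (TT φ k v))) := by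
  funext u
  rw [h.mu_apply hk, BB_apply, II_apply, TT_apply, TT_apply, II_apply, h.mu_apply hk]
  congr 1
  have hs : (padd (h.pinv u) x).1 ≠ 0 := XX_ne _
  have e3 : ∀ z, H.U (padd (h.pinv u) x).1 (H.U (h.pinv (padd (h.pinv u) x)).1 z) = z :=
    fun z => H.U_inv_right _ _ hs
  rw [e3]
  congr 2
  apply Subtype.ext
  show -(h.psc k (h.pinv u)).1 + φ (-(k * k * x)) =
    -(h.psc k (h.pinv (h.pinv (padd (h.pinv u) x)))).1
  rw [h.psc_val hk, h.psc_val hk]
  have e : (h.pinv (h.pinv (padd (h.pinv u) x))).1 = H.inv u.1 + φ x := by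
    show H.inv (H.inv (H.inv u.1 + φ x)) = _
    rw [H.inv_inv]
  rw [e, map_add, h.U, map_neg]
  show -H.U (φ k) (H.inv u.1) + -φ (k * k * x) = _
  abel

theorem rel_eq (k y : L) (v : VV φ) (hk : k ≠ 0) : h.BB y (TT φ k v) =
    TT φ k (h.BB (-k⁻¹) (TT φ (-(k * k * y)) (h.BB k⁻¹ v))) := by
  have h1 := h.mu_TT hk y (TT φ (-k) (h.BB k⁻¹ v))
  rw [← TT_add, ← TT_add, ← TT_add] at h1
  have e1 : k + -(k * k * y) + -k = -(k * k * y) := by ring
  rw [e1, add_neg_cancel, TT_zero, ← h.BB_add (-k⁻¹) k⁻¹, neg_add_cancel, BB_zero] at h1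
  exact h1.symm

/-- The operators. -/
noncomputable def op : Op L (VV φ) where
  T := TT φ
  B := h.BB
  D := h.DD
  T_zero := TT_zero
  T_add := TT_add
  B_zero := h.BB_zero
  B_add := h.BB_add
  D_inv := h.DD_inv
  D_T := h.DD_TT
  D_B := h.DD_BB
  rel := h.rel_eq
  mu := h.mu_eq

end TP

end Pool.Agent.HuaFd13
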