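import Mathlib
import Pool.Agent.HuaFd13.Vec
import Pool.Agent.HuaP73.Trick

/-!
# Exponent two: bounded degree along a two-point field
-/

set_option autoImplicit false

namespace Pool.Agent.HuaFd13

open Pool.Agent.HuaTop84 Pool.Agent.HuaVal Pool.Agent.HuaOne84 Pool.Agent.HuaDom91
  Pool.Agent.HuaP73 Pool.Agent.HuaPair25

variable {A : Type} [AddCommGroup A]

/-- The mixed difference. -/
def MM (H : HS A) (x c u : A) : A := H.U (u + x) c + H.U u c + H.U x c

section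

variable (h2 : ∀ a : A, a + a = 0) (H : HS A)

include h2

theorem two_sub (a b : A) : a - b = a + b := by
  have h := h2 b
  have : -b = b := neg_eq_of_add_eq_zero_left h
  rw [sub_eq_add_neg, this]

theorem shift2 (u : A) {c : A} (hc : c ≠ 0) : H.U (u + H.inv c) c = H.U u c + H.inv c := by
  have h := U_shift H u (H.inv_ne c hc)
  rw [H.inv_inv] at h
  rw [h, h2 u, zero_add]

theorem MM_L1 (x u : A) {c : A} (hc : c ≠ 0) : MM H x c (u + H.inv c) = MM H x c u := by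
  unfold MM
  have e : u + H.inv c + x = (u + x) + H.inv c := by abel
  rw [e, shift2 h2 H _ hc, shift2 h2 H _ hc]
  have h := h2 (H.inv c)
  calc H.U (u + x) c + H.inv c + (H.U u c + H.inv c) + H.U x c
      = H.U (u + x) c + H.U u c + H.U x c + (H.inv c + H.inv c) := by abel
    _ = _ := by rw [h, add_zero]

theorem MM_inv (u : A) {x : A} (hx : x ≠ 0) : MM H x (H.inv x) u = 0 := by
  unfold MM
  have h := shift2 h2 H u (H.inv_ne x hx)
  rw [H.inv_inv] at h
  rw [h, H.U_self]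
  calc H.U u (H.inv x) + x + H.U u (H.inv x) + x
      = (H.U u (H.inv x) + H.U u (H.inv x)) + (x + x) := by abel
    _ = 0 := by rw [h2, h2, add_zero]

omit h2 in
theorem MM_add (x c c' u : A) : MM H x (c + c') u = MM H x c u + MM H x c' u := by
  unfold MM
  rw [map_add, map_add, map_add]
  abel

theorem MM_L2 (c u : A) {x : A} (hx : x ≠ 0) : MM H x (c + H.inv x) u = MM H x c u := by
  rw [MM_add, MM_inv h2 H u hx, add_zero]

theorem MM_L3 (x u : A) {c : A} (hc : c ≠ 0) : MM H (x + H.inv c) c u = MM H x c u := by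
  unfold MM
  rw [← add_assoc, shift2 h2 H _ hc, shift2 h2 H _ hc]
  have h := h2 (H.inv c)
  calc H.U (u + x) c + H.inv c + H.U u c + (H.U x c + H.inv c)
      = H.U (u + x) c + H.U u c + H.U x c + (H.inv c + H.inv c) := by abel
    _ = _ := by rw [h, add_zero]

theorem MM_self (x c u : A) : MM H x c (u + x) = MM H x c u := by
  unfold MM
  rw [add_assoc u x x, h2 x, add_zero]
  abel

theorem MM_zero (x c : A) : MM H x c 0 = 0 := by
  unfold MM
  have : H.U 0 c = 0 := by rw [H.U_zero]; rfl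
  rw [zero_add, this, add_zero, h2]

end

namespace TP

variable {H : HS A} {L : Type} [Field L] {φ : L →+ A} (h : TP H φ) (h2 : ∀ a : A, a + a = 0)

include h h2

theorem two (x : L) : x + x = 0 := by
  apply h.inj
  rw [map_add, h2, map_zero]

/-- the chain of coincidences -/
theorem chain {t x c : L} (ht : t ≠ 0) (ht1 : t + 1 ≠ 0) (hx : x ≠ 0) (hc : c ≠ 0)
    (hxc : x * c = t) (u : A) :
    MM H (φ (x * (1 + t⁻¹)⁻¹)) (φ (c * (1 + t⁻¹))) u = MM H (φ x) (φ c) u := by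
  have hρ : (1 : L) + t⁻¹ ≠ 0 := by
    intro h0
    apply ht1
    have : t * (1 + t⁻¹) = 0 := by rw [h0, mul_zero]
    rw [mul_add, mul_inv_cancel₀ ht, mul_one] at this
    exact this
  have e1 : c * (1 + t⁻¹) = c + x⁻¹ := by
    rw [← hxc]
    field_simp
  have hc' : c * (1 + t⁻¹) ≠ 0 := mul_ne_zero hc hρ
  have s1 := MM_L2 h2 H (φ c) u (h.ne' hx)
  rw [h.inv, ← map_add, ← e1] at s1
  have s2 := MM_L3 h2 H (φ x) u (h.ne' hc')
  rw [h.inv, ← map_add] at s2
  have e2 : x + (c * (1 + t⁻¹))⁻¹ = x * (1 + t⁻¹)⁻¹ := by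
    have h3 : c = t / x := by rw [← hxc]; field_simp
    have h4 : (t + 1) * (t + 1)⁻¹ = 1 := mul_inv_cancel₀ ht1
    have e5 : (c * (1 + t⁻¹))⁻¹ = x * (t + 1)⁻¹ := by
      rw [h3]
      field_simp
    have e6 : (1 + t⁻¹)⁻¹ = t * (t + 1)⁻¹ := by field_simp
    rw [e5, e6]
    have h5 := h.two h2 (x * (t + 1)⁻¹)
    have h6 : x = x * (t + 1) * (t + 1)⁻¹ := by rw [mul_assoc, h4, mul_one]
    linear_combination h6 + h5
  rw [e2] at s2
  rw [s2, s1]

omit h2 in
/-- scaling -/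
theorem MM_scale (x c : A) {k : L} (hk : k ≠ 0) (u : A) :
    H.U (φ k) (MM H x c (H.U (φ k⁻¹) u)) = MM H (H.U (φ k) x) (H.U (φ k⁻¹) c) u := by
  have hk' := h.ne' hk
  unfold MM
  rw [map_add, map_add]
  have e1 : H.U (φ k⁻¹) u + x = H.U (φ k⁻¹) (u + H.U (φ k) x) := by
    rw [map_add, ← h.inv, H.U_inv_left _ _ hk']
  have e2 : ∀ z, H.U (φ k) (H.U (φ k⁻¹) z) = z := by
    intro z
    rw [← h.inv, H.U_inv_right _ _ hk']
  rw [e1, H.U_U, H.U_U, e2, e2, H.U_U, ← h.inv, H.U_inv_right _ _ hk']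

/-- The mixed difference is invariant under `U_ρ`, `ρ = 1 + 1/t`. -/
theorem MM_rho {t : L} (ht : t ≠ 0) (ht1 : t + 1 ≠ 0) (u : A) :
    H.U (φ (1 + t⁻¹)) (MM H (φ t) H.one (H.U (φ (1 + t⁻¹)⁻¹) u)) = MM H (φ t) H.one u := by
  have hρ : (1 : L) + t⁻¹ ≠ 0 := by
    intro h0
    apply ht1
    have : t * (1 + t⁻¹) = 0 := by rw [h0, mul_zero]
    rw [mul_add, mul_inv_cancel₀ ht, mul_one] at this
    exact this
  set ρ : L := 1 + t⁻¹ with hρd
  have c1 := fun u => h.chain h2 ht ht1 ht one_ne_zero (mul_one t) u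
  have c2 := fun u => h.chain h2 ht ht1 (x := t * ρ⁻¹) (c := 1 * ρ)
    (mul_ne_zero ht (inv_ne_zero hρ)) (mul_ne_zero one_ne_zero hρ) (by field_simp) u
  have c3 : ∀ u, MM H (φ t) H.one u = MM H (φ (t * ρ⁻¹ * ρ⁻¹)) (φ (1 * ρ * ρ)) u := by
    intro u
    rw [c2, c1, h.one]
  rw [c3, h.MM_scale _ _ hρ, h.U, h.U]
  have e1 : ρ * ρ * (t * ρ⁻¹ * ρ⁻¹) = t := by field_simp
  have e2 : ρ⁻¹ * ρ⁻¹ * (1 * ρ * ρ) = 1 := by field_simp
  rw [e1, e2, h.one]

end TP

section

variable {L : Type} [Field L]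

/-- The ring generated by `ρ` and `ρ⁻¹`, `ρ = 1 + 1/t`. -/
def RR (t : L) : Subring L := Subring.closure {1 + t⁻¹, (1 + t⁻¹)⁻¹}

variable {t : L}

theorem rho_mem : 1 + t⁻¹ ∈ RR t := Subring.subset_closure (Or.inl rfl)

theorem rhoi_mem : (1 + t⁻¹)⁻¹ ∈ RR t := Subring.subset_closure (Or.inr rfl)

theorem RR1 : t⁻¹ ∈ RR t := by
  have h := (RR t).sub_mem (rho_mem (t := t)) (RR t).one_mem
  rwa [add_sub_cancel_left] at h

theorem RR2 (ht : t ≠ 0) (ht1 : t + 1 ≠ 0) : ∀ x ∈ RR t, ∃ n : ℤ, ∃ r ∈ RR t, t * x = n * t + r := by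
  intro x hx
  induction hx using Subring.closure_induction with
  | mem x hx =>
    rcases hx with rfl | rfl
    · refine ⟨1, 1, (RR t).one_mem, ?_⟩
      rw [mul_add, mul_inv_cancel₀ ht]
      simp
    · refine ⟨1, -(1 + t⁻¹)⁻¹, (RR t).neg_mem rhoi_mem, ?_⟩
      have hρ : (1 : L) + t⁻¹ ≠ 0 := by
        intro h0
        apply ht1
        have : t * (1 + t⁻¹) = 0 := by rw [h0, mul_zero]
        rw [mul_add, mul_inv_cancel₀ ht, mul_one] at this
        exact this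
      have h3 : (1 + t⁻¹) * (1 + t⁻¹)⁻¹ = 1 := mul_inv_cancel₀ hρ
      have h4 : t * t⁻¹ = 1 := mul_inv_cancel₀ ht
      rw [Int.cast_one, one_mul]
      linear_combination t * h3 - (1 + t⁻¹)⁻¹ * h4
  | zero => exact ⟨0, 0, (RR t).zero_mem, by simp⟩
  | one => exact ⟨1, 0, (RR t).zero_mem, by simp⟩
  | add x y _ _ hx hy =>
    obtain ⟨n, r, hr, h1⟩ := hx
    obtain ⟨m, s, hs, h2⟩ := hy
    refine ⟨n + m, r + s, (RR t).add_mem hr hs, ?_⟩
    rw [mul_add, h1, h2]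
    push_cast
    ring
  | neg x _ hx =>
    obtain ⟨n, r, hr, h1⟩ := hx
    refine ⟨-n, -r, (RR t).neg_mem hr, ?_⟩
    rw [mul_neg, h1]
    push_cast
    ring
  | mul x y _ hy0 hx hy =>
    obtain ⟨n, r, hr, h1⟩ := hx
    obtain ⟨m, s, hs, h2⟩ := hy
    have hy' : y ∈ RR t := hy0
    refine ⟨n * m, n * s + r * y, (RR t).add_mem ((RR t).mul_mem (intCast_mem _ n) hs)
      ((RR t).mul_mem hr hy'), ?_⟩
    push_cast
    linear_combination y * h1 + n * h2

/-- additive subgroups containing the powers of `ρ` contain the ring -/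
theorem RR_sub (ht : t ≠ 0) (ht1 : t + 1 ≠ 0) (S : AddSubgroup L) (h1 : (1 : L) ∈ S)
    (h2 : (1 + t⁻¹)⁻¹ ∈ S)
    (hS : ∀ x ∈ S, (1 + t⁻¹) * (1 + t⁻¹) * x ∈ S)
    (hS' : ∀ x ∈ S, (1 + t⁻¹)⁻¹ * (1 + t⁻¹)⁻¹ * x ∈ S) : ∀ x ∈ RR t, x ∈ S := by
  have hρ : (1 : L) + t⁻¹ ≠ 0 := by
    intro h0
    apply ht1
    have : t * (1 + t⁻¹) = 0 := by rw [h0, mul_zero]
    rw [mul_add, mul_inv_cancel₀ ht, mul_one] at this
    exact this
  set ρ : L := 1 + t⁻¹ with hρd
  have hρm : ρ ∈ S := by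
    have h3 := hS _ h2
    have e : ρ * ρ * ρ⁻¹ = ρ := by field_simp
    rwa [e] at h3
  -- the elements `x` with `x ∈ S` and `ρ x ∈ S`
  let S' : AddSubgroup L :=
    { carrier := {x | x ∈ S ∧ ρ * x ∈ S}
      add_mem' := by
        rintro a b ⟨ha, ha'⟩ ⟨hb, hb'⟩
        exact ⟨S.add_mem ha hb, by rw [mul_add]; exact S.add_mem ha' hb'⟩
      zero_mem' := ⟨S.zero_mem, by rw [mul_zero]; exact S.zero_mem⟩
      neg_mem' := by
        rintro a ⟨ha, ha'⟩
        exact ⟨S.neg_mem ha, by rw [mul_neg]; exact S.neg_mem ha'⟩ }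
  have key : ∀ x ∈ RR t, ∀ s ∈ S', x * s ∈ S' := by
    intro x hx
    induction hx using Subring.closure_induction with
    | mem x hx =>
      rcases hx with rfl | rfl
      · rintro s ⟨hs, hs'⟩
        refine ⟨hs', ?_⟩
        have h3 := hS _ hs
        rwa [mul_assoc] at h3
      · rintro s ⟨hs, hs'⟩
        have h3 := hS' _ hs'
        have e : ρ⁻¹ * ρ⁻¹ * (ρ * s) = ρ⁻¹ * s := by field_simp
        rw [e] at h3
        refine ⟨h3, ?_⟩
        have e2 : ρ * (ρ⁻¹ * s) = s := by field_simp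
        show ρ * (ρ⁻¹ * s) ∈ S
        rwa [e2]
    | zero => intro s _; rw [zero_mul]; exact S'.zero_mem
    | one => intro s hs; rwa [one_mul]
    | add x y _ _ hx hy => intro s hs; rw [add_mul]; exact S'.add_mem (hx s hs) (hy s hs)
    | neg x _ hx => intro s hs; rw [neg_mul]; exact S'.neg_mem (hx s hs)
    | mul x y _ _ hx hy => intro s hs; rw [mul_assoc]; exact hx _ (hy s hs)
  intro x hx
  have h5 := key x hx 1 ⟨h1, by rwa [mul_one]⟩
  rw [mul_one] at h5
  exact h5.1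

end

namespace TP

variable {H : HS A} {L : Type} [Field L] {φ : L →+ A} (h : TP H φ) (h2 : ∀ a : A, a + a = 0)

/-- the vector field -/
def mm (H : HS A) (φ : L →+ A) (t : L) : VV φ := fun u => MM H (φ t) H.one u.1

/-- the stabiliser of a vector field under translations -/
def St (v : VV φ) : AddSubgroup L where
  carrier := {x | TT φ x v = v}
  add_mem' := by
    intro a b ha hb
    show TT φ (a + b) v = v
    rw [TT_add, show TT φ b v = v from hb, show TT φ a v = v from ha]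
  zero_mem' := TT_zero v
  neg_mem' := by
    intro a ha
    show TT φ (-a) v = v
    conv_lhs => rw [← show TT φ a v = v from ha]
    rw [← TT_add, neg_add_cancel, TT_zero]

theorem mem_St {v : VV φ} {x : L} : x ∈ St v ↔ TT φ x v = v := Iff.rfl

include h h2

theorem DD_mm {t : L} (ht : t ≠ 0) (ht1 : t + 1 ≠ 0) :
    h.DD (1 + t⁻¹) (mm H φ t) = mm H φ t := by
  have hρ : (1 : L) + t⁻¹ ≠ 0 := by
    intro h0
    apply ht1
    have : t * (1 + t⁻¹) = 0 := by rw [h0, mul_zero]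
    rw [mul_add, mul_inv_cancel₀ ht, mul_one] at this
    exact this
  funext u
  rw [DD_apply]
  show H.U (φ (1 + t⁻¹)) (MM H (φ t) H.one (h.psc (1 + t⁻¹)⁻¹ u).1) = _
  rw [h.psc_val (inv_ne_zero hρ), h.MM_rho h2 ht ht1]
  rfl

theorem St_mm {t : L} (ht : t ≠ 0) (ht1 : t + 1 ≠ 0) : ∀ x ∈ RR t, x ∈ St (mm H φ t) := by
  have hρ : (1 : L) + t⁻¹ ≠ 0 := by
    intro h0
    apply ht1
    have : t * (1 + t⁻¹) = 0 := by rw [h0, mul_zero]
    rw [mul_add, mul_inv_cancel₀ ht, mul_one] at this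
    exact this
  have hD := h.DD_mm h2 ht ht1
  have hD' : h.DD (1 + t⁻¹)⁻¹ (mm H φ t) = mm H φ t := by
    have h3 := h.DD_inv (1 + t⁻¹)⁻¹ (mm H φ t) (inv_ne_zero hρ)
    rwa [inv_inv, hD] at h3
  refine RR_sub ht ht1 _ ?_ ?_ ?_ ?_
  · funext u
    show MM H (φ t) H.one (u.1 + φ 1) = MM H (φ t) H.one u.1
    have h3 := MM_L1 h2 H (φ t) u.1 H.one_ne
    rw [h.one]
    rwa [H.inv_one] at h3
  · have h3 : ∀ w, MM H (φ t) (φ (1 + t⁻¹)) w = MM H (φ t) H.one w := by
      intro w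
      have h4 := MM_L2 h2 H H.one w (h.ne' ht)
      rwa [h.inv, ← h.one, ← map_add, h.one] at h4
    funext u
    show MM H (φ t) H.one (u.1 + φ (1 + t⁻¹)⁻¹) = MM H (φ t) H.one u.1
    have h4 := MM_L1 h2 H (φ t) u.1 (h.ne' hρ)
    rwa [h3, h3, h.inv] at h4
  · intro x hx
    rw [mem_St] at hx ⊢
    have h3 := h.DD_TT (1 + t⁻¹) x (mm H φ t) hρ
    rw [hx, hD] at h3
    exact h3.symm
  · intro x hx
    rw [mem_St] at hx ⊢
    have h3 := h.DD_TT (1 + t⁻¹)⁻¹ x (mm H φ t) (inv_ne_zero hρ)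
    rw [hx, hD'] at h3
    exact h3.symm

omit h2 in
/-- inversion of the vector field -/
theorem II_mm {t : L} (ht : t ≠ 0) : h.II (mm H φ t) = h.DD t⁻¹ (mm H φ t) := by
  have ht' := h.ne' ht
  have hti : φ t⁻¹ ≠ 0 := h.ne' (inv_ne_zero ht)
  have e1 : ∀ z, H.U (φ t⁻¹) (H.U (φ t) z) = z := by
    intro z
    rw [← h.inv, H.U_inv_left _ _ ht']
  funext u
  have hu := XX_ne u
  have hup : u.1 + φ t⁻¹ ≠ 0 := XX_ne (padd u t⁻¹)
  rw [II_apply, DD_apply]
  have a1 : H.U u.1 (mm H φ t (h.pinv u)) =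
      H.U (u.1 + φ t⁻¹) (H.U (φ t) H.one) + H.one + H.U u.1 (H.U (φ t) H.one) := by
    show H.U u.1 (H.U (H.inv u.1 + φ t) H.one + H.U (H.inv u.1) H.one + H.U (φ t) H.one) = _
    have hs : H.inv u.1 + φ t ≠ 0 := XX_ne (padd (h.pinv u) t)
    rw [map_add, map_add, H.U_inv_right _ _ hu, H.sum _ _ _ (H.inv_ne _ hu) ht' hs,
      H.U_inv_right _ _ hu, H.inv_inv, h.inv]
  have a2 : H.U (φ t⁻¹) (mm H φ t (h.psc t⁻¹⁻¹ u)) =
      H.U (u.1 + φ t⁻¹) (H.U (φ t) H.one) + H.U u.1 (H.U (φ t) H.one) + H.one := by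
    show H.U (φ t⁻¹) (H.U ((h.psc t⁻¹⁻¹ u).1 + φ t) H.one + H.U (h.psc t⁻¹⁻¹ u).1 H.one +
      H.U (φ t) H.one) = _
    rw [inv_inv, h.psc_val ht, map_add, map_add, e1]
    have e2 : H.U (φ t) u.1 + φ t = H.U (φ t) (u.1 + φ t⁻¹) := by
      rw [map_add, ← h.inv, H.U_self]
    rw [e2, H.U_U, H.U_U, e1, e1]
  rw [a1, a2]
  abel

theorem BB_mm {t : L} (ht : t ≠ 0) (ht1 : t + 1 ≠ 0) {x : L} (hx : x ∈ RR t) :
    h.BB (t⁻¹ ^ 2 * x) (mm H φ t) = mm H φ t := by
  have h3 := h.II_mm ht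
  have h4 := h.DD_TT t⁻¹ x (mm H φ t) (inv_ne_zero ht)
  rw [(mem_St).1 (h.St_mm h2 ht ht1 x hx)] at h4
  rw [BB_apply, h3]
  have e : t⁻¹ ^ 2 * x = t⁻¹ * t⁻¹ * x := by ring
  rw [e, ← h4, ← h3, II_II]

theorem typ_mm {t : L} (ht : t ≠ 0) (ht1 : t + 1 ≠ 0) : h.op.Typ t (RR t) 1 (mm H φ t) := by
  constructor
  · intro x hx
    obtain ⟨n, r, hr, e⟩ := RR2 ht ht1 x hx
    have h3 : t ∈ St (mm H φ t) := by
      rw [mem_St]
      funext u
      exact MM_self h2 H (φ t) H.one u.1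
    have h4 : t * x ∈ St (mm H φ t) := by
      rw [e, ← zsmul_eq_mul]
      exact AddSubgroup.add_mem _ (AddSubgroup.zsmul_mem _ h3 n) (h.St_mm h2 ht ht1 r hr)
    rw [pow_one]
    show TT φ (t * x) (mm H φ t) - mm H φ t ∈ _
    rw [mem_St.1 h4, sub_self]
    exact AddSubgroup.zero_mem _
  · intro y hy
    show h.BB (t⁻¹ ^ (1 + 1) * y) (mm H φ t) - mm H φ t ∈ _
    rw [h.BB_mm h2 ht ht1 hy, sub_self]
    exact AddSubgroup.zero_mem _

end TP

/-! ### Bounded degree -/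

section

variable {H : HS A} {L : Type} [Field L] {φ : L →+ A} (h : TP H φ)

/-- restriction of a map to the complement of the field -/
def res (φ : L →+ A) (F : A → A) : VV φ := fun u => F u.1

theorem res_diff (F : A → A) (x : L) :
    TP.TT φ x (res φ F) - res φ F = res φ (fwdDiff (φ x) F) := rfl

theorem nil_res {t : L} {R : Subring L} : ∀ (r : ℕ) (F : A → A),
    (∀ b : Fin r → L, IsAff (act (∏ k, tt (φ (b k))) F)) → h.op.Nil t R (r + 2) (res φ F) := by
  intro r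
  induction r with
  | zero =>
    intro F hF n n'
    have h1 : IsAff F := by simpa using hF (fun i => i.elim0)
    show TP.TT φ (t ^ n') (TP.TT φ (t ^ n) (res φ F) - res φ F) -
      (TP.TT φ (t ^ n) (res φ F) - res φ F) ∈ _
    have h0 : TP.TT φ (t ^ n') (TP.TT φ (t ^ n) (res φ F) - res φ F) -
      (TP.TT φ (t ^ n) (res φ F) - res φ F) = 0 := by
      rw [res_diff, res_diff]
      funext u
      show F (u.1 + φ (t ^ n') + φ (t ^ n)) - F (u.1 + φ (t ^ n')) -
        (F (u.1 + φ (t ^ n)) - F u.1) = 0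
      have e1 : F (u.1 + φ (t ^ n') + φ (t ^ n)) =
          F (u.1 + φ (t ^ n')) + F (φ (t ^ n)) - F 0 := by
        rw [← h1]; abel
      have e2 : F (u.1 + φ (t ^ n)) = F u.1 + F (φ (t ^ n)) - F 0 := by
        rw [← h1]; abel
      rw [e1, e2]
      abel
    rw [h0]
    exact AddSubgroup.zero_mem _
  | succ r ih =>
    intro F hF n
    show h.op.Nil t R (r + 2) (TP.TT φ (t ^ n) (res φ F) - res φ F)
    rw [res_diff]
    refine ih _ fun b => ?_
    have h1 := hF (Fin.cons (t ^ n) b)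
    rw [Fin.prod_univ_succ] at h1
    simp only [Fin.cons_zero, Fin.cons_succ] at h1
    rw [mul_comm, map_mul, Module.End.mul_apply, act_tt] at h1
    exact h1

end

/-- **Bounded degree gives a period.** -/
theorem period (h2 : ∀ a : A, a + a = 0) {H : HS A} {L : Type} [Field L] {φ : L →+ A}
    (h : TP H φ) {t : L} (ht : t ≠ 0) (ht1 : t + 1 ≠ 0)
    (hfd : ∃ N : ℕ, ∀ b : Fin N → L, ∏ k, tt (φ (b k)) ∈ aa H (φ t)) (u : A) :
    MM H (φ t) H.one (u + H.U (φ t) H.one) = MM H (φ t) H.one u := by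
  obtain ⟨N, hN⟩ := hfd
  have two := h.two h2
  have hUt : H.U (φ t) H.one = φ (t * t) := by rw [← h.one, h.U, mul_one]
  -- the vector field as a difference
  have hm : TP.mm H φ t = res φ (fwdDiff (φ t) (fld H H.one) + fun _ => H.U (φ t) H.one) := by
    funext u
    show H.U (u.1 + φ t) H.one + H.U u.1 H.one + H.U (φ t) H.one =
      H.U (u.1 + φ t) H.one - H.U u.1 H.one + H.U (φ t) H.one
    rw [two_sub h2]
  have hnil : h.op.Nil t (RR t) (N + 2) (TP.mm H φ t) := by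
    rw [hm]
    refine nil_res h N _ fun b => ?_
    rw [map_add]
    refine IsAff.add (mem_aa.1 (hN b)) (IsAff.act ?_ _)
    intro u v
    rfl
  have h11 : t * t - 1 = (t + 1) * (t + 1) := by
    linear_combination -(two (1 : L)) - two t
  have hti : (t + 1)⁻¹ ∈ RR t := by
    have h3 := (RR t).sub_mem (RR t).one_mem (rhoi_mem (t := t))
    have h4 : (1 : L) - (1 + t⁻¹)⁻¹ = (t + 1)⁻¹ := by
      have e6 : (1 + t⁻¹)⁻¹ = t * (t + 1)⁻¹ := by field_simp
      rw [e6]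
      have h5 : (t + 1) * (t + 1)⁻¹ = 1 := mul_inv_cancel₀ ht1
      linear_combination -h5
    rwa [h4] at h3
  have hmem := h.op.main ht RR1 (RR2 ht ht1) (by rw [h11]; exact mul_ne_zero ht1 ht1)
    (by rw [h11, mul_inv]; exact (RR t).mul_mem hti hti)
    (by
      intro n
      rcases Nat.even_or_odd' n with ⟨k, hk | hk⟩
      · have : (n : L) = 0 := by
          rw [hk]; push_cast
          have := two (k : L)
          linear_combination this
        rw [this, inv_zero]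
        exact (RR t).zero_mem
      · have : (n : L) = 1 := by
          rw [hk]; push_cast
          have := two (k : L)
          linear_combination this
        rw [this, inv_one]
        exact (RR t).one_mem) (N + 2) 1 _ (h.typ_mm h2 ht ht1) hnil
  have htt : t * t ∈ Rs t (RR t) := by
    have := Rs_pow (R := RR t) ht 2
    rwa [pow_two] at this
  have hT := (hmem _ htt).1
  rw [hUt]
  by_cases hu : u ∈ Set.range φ
  · obtain ⟨x, rfl⟩ := hu
    have hz : ∀ x : L, MM H (φ t) H.one (φ x) = 0 := by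
      intro x
      unfold MM
      rw [← map_add, ← h.one, h.U, h.U, h.U, ← map_add, ← map_add]
      have e : (x + t) * (x + t) * 1 + x * x * 1 + t * t * 1 = 0 := by
        linear_combination two (x * x) + two (t * t) + two (x * t)
      rw [e, map_zero]
    rw [← map_add, hz, hz]
  · exact congrFun hT ⟨u, hu⟩

end Pool.Agent.HuaFd13
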