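import Mathlib
import Pool.Agent.HuaFd13.Two
import Pool.Agent.HuaP87.Perf

/-!
# Exponent two: bounded degree implies that the third differences vanish
-/

set_option autoImplicit false

open Polynomial

namespace Pool.Agent.HuaFd13

open Pool.Agent.HuaTop84 Pool.Agent.HuaVal Pool.Agent.HuaOne84 Pool.Agent.HuaDom91
  Pool.Agent.HuaP73 Pool.Agent.HuaPair25 Pool.Agent.HuaKey73 Pool.Agent.HuaP87

variable {A : Type} [AddCommGroup A]

theorem MM_comm (H : HS A) (x c u : A) : MM H x c u = MM H u c x := by
  unfold MM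
  rw [add_comm u x]
  abel

/-- **Periods imply additivity.** -/
theorem MM_additive (h2 : ∀ a : A, a + a = 0) (H : HS A)
    (hper : ∀ c y u : A, MM H y c (u + H.U y c) = MM H y c u) (y c v w : A) :
    MM H y c (v + w) = MM H y c v + MM H y c w := by
  by_cases hy : y = 0
  · subst hy
    have hz : ∀ u, MM H 0 c u = 0 := by
      intro u
      rw [MM_comm, MM_zero h2]
    rw [hz, hz, hz, add_zero]
  -- the exchange
  have hex : ∀ u c c', MM H y c (u + H.U y c') + MM H y c' (u + H.U y c) =
      MM H y c u + MM H y c' u := by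
    intro u c c'
    have h1 := hper (c + c') y u
    rw [MM_add, MM_add, map_add] at h1
    have e1 : u + (H.U y c + H.U y c') = u + H.U y c' + H.U y c := by abel
    have e2 : u + (H.U y c + H.U y c') = u + H.U y c + H.U y c' := by abel
    have h3 : MM H y c (u + (H.U y c + H.U y c')) = MM H y c (u + H.U y c') := by
      rw [e1, hper]
    have h4 : MM H y c' (u + (H.U y c + H.U y c')) = MM H y c' (u + H.U y c) := by
      rw [e2, hper]
    rwa [h3, h4] at h1
  have hadd : ∀ c' c'', MM H y c (H.U y c' + H.U y c'') =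
      MM H y c (H.U y c') + MM H y c (H.U y c'') := by
    intro c' c''
    have a1 := hex 0 c c'
    have a2 := hex 0 c c''
    have a3 := hex 0 c (c' + c'')
    rw [MM_zero h2, MM_zero h2, zero_add, zero_add, add_zero] at a1 a2 a3
    rw [MM_add, map_add] at a3
    have b1 : MM H y c (H.U y c') = -MM H y c' (H.U y c) := eq_neg_of_add_eq_zero_left a1
    have b2 : MM H y c (H.U y c'') = -MM H y c'' (H.U y c) := eq_neg_of_add_eq_zero_left a2
    have b3 := eq_neg_of_add_eq_zero_left a3
    rw [b3, b1, b2]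
    abel
  have h3 := hadd (H.U (H.inv y) v) (H.U (H.inv y) w)
  rwa [H.U_inv_right _ _ hy, H.U_inv_right _ _ hy] at h3

theorem T3_of_period (h2 : ∀ a : A, a + a = 0) {J : A → A → A} (hJ : JSys J)
    (hper : ∀ (b : A) (hb : b ≠ 0) (y u : A),
      MM (toHS hJ b hb) y b (u + (toHS hJ b hb).U y b) = MM (toHS hJ b hb) y b u) :
    ∀ e, e ≠ 0 → ∀ x y z c, T3 J e x y z c = 0 := by
  intro e he x y z c
  set S := toHS hJ e he with hS
  have hper' : ∀ c y u : A, MM S y c (u + S.U y c) = MM S y c u := by
    intro c y u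
    by_cases hc : c = 0
    · subst hc
      unfold MM
      simp
    have hb : J e c ≠ 0 := S.inv_ne c hc
    have h3 := hper (J e c) hb y u
    have key : ∀ v, (toHS hJ (J e c) hb).U v (J e c) = S.U v c := by
      intro v
      show H J (J e c) v (J e c) = H J e v c
      have h4 := H_change' hJ (e := e) hb v c
      have h5 : H J e (J e c) c = J e c := by
        have h6 := S.U_self (J e c)
        have h7 : S.inv (J e c) = c := S.inv_inv c
        rw [h7] at h6
        exact h6
      rwa [h5] at h4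
    unfold MM at h3 ⊢
    rw [key, key, key, key, key] at h3
    exact h3
  have h3 := MM_additive h2 S hper' z c x y
  unfold MM at h3
  show H J e (x + y + z) c - H J e (x + y) c - H J e (x + z) c - H J e (y + z) c +
    H J e x c + H J e y c + H J e z c = 0
  change H J e (x + y + z) c + H J e (x + y) c + H J e z c =
    H J e (x + z) c + H J e x c + H J e z c + (H J e (y + z) c + H J e y c + H J e z c) at h3
  have hn : ∀ a : A, -a = a := fun a => neg_eq_of_add_eq_zero_left (h2 a)
  have h4 : H J e (x + y + z) c = H J e (x + z) c + H J e x c + H J e z c +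
      (H J e (y + z) c + H J e y c + H J e z c) - (H J e (x + y) c + H J e z c) := by
    rw [← h3]; abel
  rw [h4]
  have d1 := h2 (H J e x c)
  have d2 := h2 (H J e y c)
  have d3 := h2 (H J e z c)
  have d4 := h2 (H J e (x + y) c)
  calc _ = (H J e x c + H J e x c) + (H J e y c + H J e y c) + (H J e z c + H J e z c) -
        (H J e (x + y) c + H J e (x + y) c) := by abel
    _ = 0 := by rw [d1, d2, d3, d4]; simp

/-- **The case of exponent two**: the third differences vanish, or the ultrapower has a closed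
pair of proper subgroups. -/
theorem T3_or_cp_two (h2 : ∀ a : A, (2 : ℕ) • a = 0) {J : A → A → A} (hJ : JSys J) :
    (∀ e, e ≠ 0 → ∀ x y z c, T3 J e x y z c = 0) ∨
      ∃ (b : A) (hb : b ≠ 0) (P V : AddSubgroup (UP A)) (c : UP A), CP (HU hJ hb) P V ∧ c ∉ P ∧
        c ∉ V := by
  by_cases hcp : ∃ (b : A) (hb : b ≠ 0) (P V : AddSubgroup (UP A)) (c : UP A),
      CP (HU hJ hb) P V ∧ c ∉ P ∧ c ∉ V
  · exact Or.inr hcp
  left
  have h2' : ∀ a : A, a + a = 0 := fun a => by rw [← two_nsmul]; exact h2 a
  have : Fact (Nat.Prime 2) := ⟨Nat.prime_two⟩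
  let _ : Module (ZMod 2) A := AddCommGroup.zmodModule h2
  refine T3_of_period h2' hJ fun b hb y u => ?_
  set H := toHS hJ b hb with hH
  have hone : H.one = b := rfl
  by_cases hy : y = 0
  · subst hy
    have hz : ∀ u, MM H 0 b u = 0 := by
      intro u
      rw [MM_comm, MM_zero h2']
    rw [hz, hz]
  by_cases hy1 : H.one + y = 0
  · have hyb : y = b := by
      have h3 : y = -H.one := by rw [eq_neg_iff_add_eq_zero, add_comm]; exact hy1
      rw [h3, hone]
      exact neg_eq_of_add_eq_zero_left (h2' b)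
    have hz : ∀ u, MM H y b u = 0 := by
      intro u
      have h3 := MM_inv h2' H u H.one_ne
      rw [H.inv_one, hone] at h3
      rw [hyb]
      exact h3
    rw [hz, hz]
  obtain ⟨L, _, _, φ, t, hinj, h1, ht, hinv, hU, hgen⟩ :=
    Pool.Agent.HuaTwo61.exists_fieldP (p := 2) H y
  have hTP : TP H φ.toAddMonoidHom := ⟨hinj, h1, hinv, hU⟩
  have ht0 : t ≠ 0 := by
    intro h0
    apply hy
    rw [← ht, h0, map_zero]
  have ht1 : t + 1 ≠ 0 := by
    intro h0
    apply hy1
    rw [← h1, ← ht, ← map_add, add_comm, h0, map_zero]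
  have hρ : (1 : L) + t⁻¹ ≠ 0 := by
    intro h0
    apply ht1
    have : t * (1 + t⁻¹) = 0 := by rw [h0, mul_zero]
    rw [mul_add, mul_inv_cancel₀ ht0, mul_one] at this
    exact this
  have hg : ∀ u, gg H y (φ.toAddMonoidHom u) = φ.toAddMonoidHom ((1 + t⁻¹) ^ 4 * u) := by
    intro u
    show H.U (H.one + H.inv y) (H.U (H.one + H.inv y) (φ u)) = φ _
    rw [← h1, ← ht, hinv, ← map_add, hU, hU]
    congr 1
    ring
  have hgen' := fun u => gen_change (p := 2) hgen (l := 1 + t⁻¹)
    ⟨1, X - 1, by
      rw [map_sub, aeval_X, map_one, add_sub_cancel_left]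
      exact inv_ne_zero ht0, by
      rw [map_sub, aeval_X, map_one, add_sub_cancel_left, one_div, inv_inv]⟩ u
  rcases dichotomy (p := 2) (g := gg H y) (aa := aa H y) hJ hb (hrho H hy hy1)
    (φ := φ.toAddMonoidHom) (l := 1 + t⁻¹) (d := 4) (by norm_num) hg hgen' with h | h
  · obtain ⟨P, V, c, h3, h4, h5⟩ := h
    exact absurd ⟨b, hb, P, V, c, h3, h4, h5⟩ hcp
  · have hfd : ∃ N : ℕ, ∀ b : Fin N → L,
        ∏ k, tt (φ.toAddMonoidHom (b k)) ∈ aa H (φ.toAddMonoidHom t) := by
      obtain ⟨N, hN⟩ := h
      refine ⟨N, fun f => ?_⟩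
      have h3 := hN f
      show _ ∈ aa H (φ t)
      rw [ht]
      exact h3
    have h3 := period h2' hTP ht0 ht1 hfd u
    have ht' : φ.toAddMonoidHom t = y := ht
    rw [ht', hone] at h3
    exact h3

end Pool.Agent.HuaFd13
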