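import Mathlib
import Pool.Agent.HuaFd13.Main
import Pool.Agent.HuaPerf2.Dom35
import Pool.Agent.HuaFd69.Odd

/-!
# Hua systems in every characteristic
-/

set_option autoImplicit false

namespace Pool.Agent.HuaFd13

open Pool.Agent.HuaVal Pool.Agent.HuaOne84 Pool.Agent.HuaKey73 Pool.Agent.HuaPerf2
  Pool.Agent.HuaFin91 Pool.Agent.HuaFd69

/-- **Exponent two**: the third differences vanish. -/
theorem T3_two {A : Type} [AddCommGroup A] (hA : ∀ a : A, (2 : ℕ) • a = 0) {J : A → A → A}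
    (hJ : JSys J) : ∀ e, e ≠ 0 → ∀ x y z c, T3 J e x y z c = 0 := by
  rcases T3_or_cp_two hA hJ with h | ⟨b, hb, P, V, c, hcp, hcP, hcV⟩
  · exact h
  · exact T3_of_cp_ultra_two Pool.Agent.HuaPerf2.Lim35.domAll
      (fun a => by rw [← two_nsmul]; exact hA a) hJ hb hcp
      (fun h => hcP (by rw [h]; trivial)) (fun h => hcV (by rw [h]; trivial))

/-- **Prime exponent**: the third differences vanish. -/
theorem T3_prime {p : ℕ} (hp : p.Prime) {A : Type} [AddCommGroup A] (hA : ∀ a : A, p • a = 0)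
    {J : A → A → A} (hJ : JSys J) : ∀ e, e ≠ 0 → ∀ x y z c, T3 J e x y z c = 0 := by
  haveI : Fact p.Prime := ⟨hp⟩
  by_cases hp2 : p = 2
  · subst hp2
    exact T3_two hA hJ
  · exact T3_odd hp2 hA hJ

end Pool.Agent.HuaFd13
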